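import Pool.Agent.Y691.SH.Sphere

/-!
# All compact subsets embed, by cutting boxes (project SH)
-/

set_option autoImplicit false

open Set Filter Topology Metric Function MeasureTheory
open scoped Manifold ContDiff

noncomputable section

namespace Pool.Agent.Y691.SH
open Pool.Agent.Y522

theorem chart_LD {n : ℕ} {X : Type} [TopologicalSpace X] [ChartedSpace (E n) X]
    [IsManifold (𝓡 n) ∞ X] (x y : X) (hy : y ∈ (chartAt (E n) x).source) :
    LD n (chartAt (E n) x) y :=
  ⟨{ toPartialEquiv := (chartAt (E n) x).toPartialEquiv
     open_source := (chartAt (E n) x).open_source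
     open_target := (chartAt (E n) x).open_target
     contMDiffOn_toFun := contMDiffOn_chart
     contMDiffOn_invFun := contMDiffOn_chart_symm }, hy, fun _ _ => rfl⟩

/-- preimages of open boxes -/
def Qb {m : ℕ} {X : Type} (h : X → E (m + 1)) (a b : Fin (m + 1) → ℝ) : Set X :=
  {x | ∀ i, a i < h x i ∧ h x i < b i}

theorem Qb_open {m : ℕ} {X : Type} [TopologicalSpace X] {h : X → E (m + 1)} (hc : Continuous h)
    (a b : Fin (m + 1) → ℝ) : IsOpen (Qb h a b) := by
  have h1 : Qb h a b = ⋂ i, {x | a i < h x i ∧ h x i < b i} := by
    ext x; simp [Qb]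
  rw [h1]
  refine isOpen_iInter_of_finite (fun i => ?_)
  have hi : Continuous (fun x => h x i) := by fun_prop
  exact (isOpen_lt continuous_const hi).inter (isOpen_lt hi continuous_const)

theorem emb_empty {n : ℕ} {X : Type} [TopologicalSpace X] [ChartedSpace (E n) X] :
    Emb n (∅ : Set X) :=
  ⟨∅, fun _ => 0, isOpen_empty, Subset.rfl, injOn_empty _, fun _ hx => absurd hx (notMem_empty _)⟩

/-- small boxes embed -/
theorem base {m : ℕ} {X : Type} [TopologicalSpace X] [ChartedSpace (E (m + 1)) X]
    [IsManifold (𝓡 (m + 1)) ∞ X] (H : X ≃ₜ E (m + 1)) (M : ℝ) :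
    ∃ δ : ℝ, 0 < δ ∧ ∀ a b : Fin (m + 1) → ℝ, (∀ i, -M ≤ a i) → (∀ i, b i ≤ M) →
      (∀ i, b i - a i ≤ δ) → ∀ K, K ⊆ Qb H a b → Emb (m + 1) K := by
  let H' : X ≃ₜ (Fin (m + 1) → ℝ) := H.trans (EuclideanSpace.equiv (Fin (m + 1)) ℝ).toHomeomorph
  have hH' : ∀ x i, H' x i = H x i := fun x i => rfl
  obtain ⟨δ, hδ, hL⟩ := lebesgue_number_lemma_of_metric
    (s := Icc (fun _ : Fin (m + 1) => -M) (fun _ => M))
    (c := fun x : X => H' '' (chartAt (E (m + 1)) x).source) isCompact_Icc
    (fun x => H'.isOpenMap _ (chartAt (E (m + 1)) x).open_source)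
    (by
      intro y _
      refine mem_iUnion.2 ⟨H'.symm y, H'.symm y, mem_chart_source _ _, H'.apply_symm_apply y⟩)
  refine ⟨δ, hδ, fun a b ha hb hab K hK => ?_⟩
  rcases K.eq_empty_or_nonempty with rfl | ⟨x₀, hx₀⟩
  · exact emb_empty
  · have h0 := hK hx₀
    obtain ⟨x, hx⟩ := hL (H' x₀) ⟨fun i => (ha i).trans (h0 i).1.le, fun i => (h0 i).2.le.trans (hb i)⟩
    refine ⟨(chartAt (E (m + 1)) x).source, chartAt (E (m + 1)) x,
      (chartAt (E (m + 1)) x).open_source, ?_, (chartAt (E (m + 1)) x).injOn,
      fun y hy => chart_LD x y hy⟩
    intro y hy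
    have h1 := hK hy
    have h2 : H' y ∈ ball (H' x₀) δ := by
      rw [mem_ball, dist_pi_lt_iff hδ]
      intro i
      rw [hH', hH', Real.dist_eq, abs_lt]
      have h3 := h1 i
      have h4 := h0 i
      have h5 := hab i
      constructor <;> linarith
    obtain ⟨z, hz, hzy⟩ := hx h2
    rwa [H'.injective hzy] at hz

/-- sigmoid -/
def sg (α β u : ℝ) : ℝ := (α + β * Real.exp u) / (1 + Real.exp u)

/-- its inverse -/
def lt' (α β h : ℝ) : ℝ := Real.log ((h - α) / (β - h))

theorem sg_mem {α β : ℝ} (hab : α < β) (u : ℝ) : α < sg α β u ∧ sg α β u < β := by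
  have h := Real.exp_pos u
  have h1 : 0 < 1 + Real.exp u := by linarith
  unfold sg
  rw [lt_div_iff₀ h1, div_lt_iff₀ h1]
  constructor <;> nlinarith

theorem lt_sg {α β : ℝ} (hab : α < β) (u : ℝ) : lt' α β (sg α β u) = u := by
  have h := Real.exp_pos u
  have h1 : 1 + Real.exp u ≠ 0 := by linarith
  have h2 : β - α ≠ 0 := by linarith
  unfold lt' sg
  have e1 : (α + β * Real.exp u) / (1 + Real.exp u) - α =
      (β - α) * Real.exp u / (1 + Real.exp u) := by
    field_simp; ring
  have e2 : β - (α + β * Real.exp u) / (1 + Real.exp u) = (β - α) / (1 + Real.exp u) := by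
    field_simp; ring
  rw [e1, e2]
  have e3 : (β - α) * Real.exp u / (1 + Real.exp u) / ((β - α) / (1 + Real.exp u)) =
      Real.exp u := by
    field_simp
  rw [e3, Real.log_exp]

theorem sg_lt {α β h : ℝ} (h1 : α < h) (h2 : h < β) : sg α β (lt' α β h) = h := by
  unfold lt' sg
  have h3 : 0 < h - α := by linarith
  have h4 : 0 < β - h := by linarith
  rw [Real.exp_log (div_pos h3 h4)]
  have h5 : 1 + (h - α) / (β - h) = (β - α) / (β - h) := by
    field_simp; ring
  have h6 : α + β * ((h - α) / (β - h)) = h * (β - α) / (β - h) := by
    field_simp; ring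
  have h7 : β - α ≠ 0 := by linarith
  rw [h5, h6]
  field_simp

theorem sg_cont (α β : ℝ) : Continuous (sg α β) := by
  have h : ∀ u : ℝ, 1 + Real.exp u ≠ 0 := fun u => by
    have := Real.exp_pos u
    linarith
  unfold sg
  fun_prop (disch := exact h)

theorem lt_cd {α β h : ℝ} (h1 : α < h) (h2 : h < β) : ContDiffAt ℝ ∞ (lt' α β) h := by
  unfold lt'
  have h3 : 0 < h - α := by linarith
  have h4 : 0 < β - h := by linarith
  refine ContDiffAt.log ?_ (div_pos h3 h4).ne'
  exact (contDiffAt_id.sub contDiffAt_const).div (contDiffAt_const.sub contDiffAt_id) h4.ne'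

/-- the slice of a box by a regular coordinate hyperplane -/
theorem slice_box (hSl : StSlice) {m : ℕ} (hE : StEng m) {X : Type} [TopologicalSpace X]
    [ChartedSpace (E (m + 1)) X] [IsManifold (𝓡 (m + 1)) ∞ X] (H : X ≃ₜ E (m + 1))
    (hH : ContMDiff (𝓡 (m + 1)) (𝓡 (m + 1)) ∞ H) (a b : Fin (m + 1) → ℝ) (hab : ∀ i, a i < b i)
    (J : Fin (m + 1)) (c : ℝ) (hc1 : a J < c) (hc2 : c < b J)
    (hreg : ∀ x, H x J = c → mfderiv (𝓡 (m + 1)) 𝓘(ℝ, ℝ) (fun x => H x J) x ≠ 0)
    (K : Set X) (hK : IsCompact K) (hKW : ∀ x ∈ K, x ∈ Qb H a b ∧ H x J - c = 0) :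
    ∃ (f : E m → X) (R : ℝ), Injective f ∧
      ContMDiff (𝓡 m) (𝓡 (m + 1)) ∞ f ∧
      (∀ x, Injective (mfderiv (𝓡 m) (𝓡 (m + 1)) f x)) ∧
      (∀ x, f x ∈ Qb H a b ∧ H (f x) J - c = 0) ∧ K ⊆ f '' closedBall 0 R := by
  have hcoord : ∀ i : Fin (m + 1), ContMDiff (𝓡 (m + 1)) 𝓘(ℝ, ℝ) ∞ (fun x => H x i) := by
    intro i
    have h1 : ContDiff ℝ ∞ (fun y : E (m + 1) => y i) := by fun_prop
    exact h1.contMDiff.comp hH
  refine hSl m hE X (Qb H a b) (fun x => H x J - c)
    (fun x => WithLp.toLp 2 (fun i : Fin m =>
      lt' (a (J.succAbove i)) (b (J.succAbove i)) (H x (J.succAbove i))))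
    (fun y => H.symm (WithLp.toLp 2 (Fin.insertNth (α := fun _ => ℝ) J c (fun i : Fin m =>
      sg (a (J.succAbove i)) (b (J.succAbove i)) (y i)))))
    (Qb_open H.continuous a b) ?_ ?_ ?_ ?_ ?_ ?_ ?_ K hK hKW
  · intro x _
    exact ((hcoord J).sub contMDiff_const).contMDiffAt
  · intro x _ hx
    exact mfderiv_sub_const' _ (hcoord J) c x (hreg x (sub_eq_zero.1 hx))
  · intro x hx _
    have h1 : ContDiffAt ℝ ∞ (fun y : E (m + 1) => (WithLp.toLp 2 (fun i : Fin m =>
        lt' (a (J.succAbove i)) (b (J.succAbove i)) (y (J.succAbove i))) : E m)) (H x) := by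
      rw [contDiffAt_euclidean]
      intro i
      have h2 : ContDiffAt ℝ ∞ (fun y : E (m + 1) => y (J.succAbove i)) (H x) := by fun_prop
      exact (lt_cd (hx (J.succAbove i)).1 (hx (J.succAbove i)).2).comp (H x) h2
    exact h1.contMDiffAt.comp x hH.contMDiffAt
  · refine H.symm.continuous.comp ?_
    refine (PiLp.continuous_toLp 2 _).comp ?_
    refine continuous_pi (fun j => ?_)
    refine Fin.succAboveCases J ?_ (fun i => ?_) j
    · simp only [Fin.insertNth_apply_same]
      exact continuous_const
    · simp only [Fin.insertNth_apply_succAbove]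
      refine (sg_cont _ _).comp ?_
      fun_prop
  · intro y
    refine ⟨?_, ?_⟩
    · intro j
      simp only [Homeomorph.apply_symm_apply]
      refine Fin.succAboveCases J ?_ (fun i => ?_) j
      · simp only [Fin.insertNth_apply_same]
        exact ⟨hc1, hc2⟩
      · simp only [Fin.insertNth_apply_succAbove]
        exact sg_mem (hab _) _
    · simp only [Homeomorph.apply_symm_apply, Fin.insertNth_apply_same, sub_self]
  · intro y
    ext i
    simp only [Homeomorph.apply_symm_apply, Fin.insertNth_apply_succAbove]
    exact lt_sg (hab _) _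
  · intro x hx hx0
    rw [Homeomorph.symm_apply_eq]
    ext j
    refine Fin.succAboveCases J ?_ (fun i => ?_) j
    · simp only [Fin.insertNth_apply_same]
      exact (sub_eq_zero.1 hx0).symm
    · simp only [Fin.insertNth_apply_succAbove]
      exact sg_lt (hx _).1 (hx _).2

/-- **All compact subsets embed.** -/
theorem boxStep (hS : StSardM) (hSl : StSlice) (hSum : StSum) : ∀ m, StEng m → StBox m := by
  intro m hE X _ _ _ H hH K hK
  have : T2Space X := H.symm.t2Space
  have : SecondCountableTopology X := H.secondCountableTopology
  have hcoord : ∀ i : Fin (m + 1), ContMDiff (𝓡 (m + 1)) 𝓘(ℝ, ℝ) ∞ (fun x => H x i) := by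
    intro i
    have h1 : ContDiff ℝ ∞ (fun y : E (m + 1) => y i) := by fun_prop
    exact h1.contMDiff.comp hH
  obtain ⟨M, hM0, hMK⟩ : ∃ M : ℝ, 0 < M ∧ ∀ x ∈ K, ‖H x‖ < M := by
    obtain ⟨C, hC⟩ := (hK.image H.continuous).isBounded.exists_norm_le
    refine ⟨max C 0 + 1, by positivity, fun x hx => ?_⟩
    have h1 := hC (H x) ⟨x, hx, rfl⟩
    have h2 := le_max_left C 0
    linarith
  obtain ⟨δ, hδ, hbase⟩ := base H M
  have key : ∀ j : ℕ, ∀ a b : Fin (m + 1) → ℝ, (∀ i, -M ≤ a i) → (∀ i, b i ≤ M) →
      (∀ i : Fin (m + 1), j ≤ i.val → b i - a i ≤ δ) → ∀ K, IsCompact K → K ⊆ Qb H a b →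
      Emb (m + 1) K := by
    intro j
    induction j with
    | zero => exact fun a b ha hb hab K _ hK => hbase a b ha hb (fun i => hab i (Nat.zero_le _)) K hK
    | succ j ih =>
      rcases Nat.lt_or_ge j (m + 1) with hj | hj
      swap
      · intro a b ha hb _ K hK hKQ
        refine ih a b ha hb (fun i hi => ?_) K hK hKQ
        exact absurd i.isLt (by omega)
      · set J : Fin (m + 1) := ⟨j, hj⟩ with hJ
        have inner : ∀ N : ℕ, ∀ a b : Fin (m + 1) → ℝ, (∀ i, -M ≤ a i) → (∀ i, b i ≤ M) →
            (∀ i : Fin (m + 1), j + 1 ≤ i.val → b i - a i ≤ δ) → b J - a J ≤ δ + N * (δ / 2) →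
            ∀ K, IsCompact K → K ⊆ Qb H a b → Emb (m + 1) K := by
          intro N
          induction N with
          | zero =>
            intro a b ha hb hab hN K hK hKQ
            refine ih a b ha hb (fun i hi => ?_) K hK hKQ
            rcases Nat.eq_or_lt_of_le hi with h | h
            · have : i = J := Fin.ext h.symm
              rw [this]
              simpa using hN
            · exact hab i h
          | succ N ihN =>
            intro a b ha hb hab hN K hK hKQ
            by_cases hN' : b J - a J ≤ δ + N * (δ / 2)
            · exact ihN a b ha hb hab hN' K hK hKQ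
            · push Not at hN'
              have hN0 : (0 : ℝ) ≤ N * (δ / 2) := by positivity
              by_cases hne : ∃ i, b i ≤ a i
              · obtain ⟨i, hi⟩ := hne
                have : K = ∅ := by
                  rw [Set.eq_empty_iff_forall_notMem]
                  intro x hx
                  have := hKQ hx i
                  linarith [this.1, this.2]
                rw [this]
                exact emb_empty
              · push Not at hne
                obtain ⟨c, hc1, hc2, hc3⟩ := exists_regular hS (fun x => H x J) (hcoord J)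
                  (show b J - δ < b J - δ / 2 by linarith)
                have hφ : ContMDiff (𝓡 (m + 1)) 𝓘(ℝ, ℝ) ∞ (fun x => H x J - c) :=
                  (hcoord J).sub contMDiff_const
                have hK0 : IsCompact (K ∩ {x | H x J - c = 0}) :=
                  hK.inter_right (isClosed_eq hφ.continuous continuous_const)
                obtain ⟨f, R, hfi, hfs, hfd, hfW, hfK⟩ := slice_box hSl hE H hH a b hne J c
                  (by linarith) (by linarith) hc3 _ hK0 (fun x hx => ⟨hKQ hx.1, hx.2⟩)
                refine hSum m X (Qb H a b) K (fun x => H x J - c) f hφ hK hKQ hfi hfs hfd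
                  (fun x => (hfW x).2)
                  (fun x => mfderiv_sub_const' _ (hcoord J) c _
                    (hc3 _ (sub_eq_zero.1 (hfW x).2)))
                  (fun x => (hfW x).1) ?_ ?_ ?_
                · intro x hx hx0
                  exact image_subset_range _ _ (hfK ⟨hx, hx0⟩)
                · intro K' hK' hK'Q hneg
                  refine ihN a (update b J (b J - δ / 2)) ha ?_ ?_ ?_ K' hK' ?_
                  · intro i
                    by_cases hi : i = J
                    · subst hi
                      rw [update_self]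
                      linarith [hb J]
                    · rw [update_of_ne hi]
                      exact hb i
                  · intro i hi
                    have hi' : i ≠ J := by
                      rintro rfl
                      simp only [hJ] at hi
                      omega
                    rw [update_of_ne hi']
                    exact hab i hi
                  · rw [update_self]
                    push_cast at hN
                    linarith
                  · intro x hx i
                    have h1 := hK'Q hx i
                    by_cases hi : i = J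
                    · subst hi
                      rw [update_self]
                      have h2 := hneg x hx
                      exact ⟨h1.1, by linarith⟩
                    · rw [update_of_ne hi]
                      exact h1
                · intro K' hK' hK'Q hpos
                  refine ih (update a J (b J - δ)) b ?_ hb ?_ K' hK' ?_
                  · intro i
                    by_cases hi : i = J
                    · subst hi
                      rw [update_self]
                      linarith [ha J]
                    · rw [update_of_ne hi]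
                      exact ha i
                  · intro i hi
                    rcases Nat.eq_or_lt_of_le hi with h | h
                    · have : i = J := Fin.ext h.symm
                      rw [this, update_self]
                      linarith
                    · have hi' : i ≠ J := by
                        rintro rfl
                        simp only [hJ] at h
                        omega
                      rw [update_of_ne hi']
                      exact hab i h
                  · intro x hx i
                    have h1 := hK'Q hx i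
                    by_cases hi : i = J
                    · subst hi
                      rw [update_self]
                      have h2 := hpos x hx
                      exact ⟨by linarith, h1.2⟩
                    · rw [update_of_ne hi]
                      exact h1
        intro a b ha hb hab K hK hKQ
        obtain ⟨N, hN⟩ := exists_nat_gt ((b J - a J - δ) / (δ / 2))
        refine inner N a b ha hb hab ?_ K hK hKQ
        rw [div_lt_iff₀ (by positivity)] at hN
        linarith
  refine key (m + 1) (fun _ => -M) (fun _ => M) (fun _ => le_rfl) (fun _ => le_rfl)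
    (fun i hi => absurd i.isLt (by omega)) K hK ?_
  intro x hx i
  have h1 := hMK x hx
  have h2 : |H x i| ≤ ‖H x‖ := by
    have := PiLp.norm_apply_le (H x) i
    simpa using this
  exact abs_lt.1 (lt_of_le_of_lt h2 h1)

end Pool.Agent.Y691.SH
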