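import Pool.Agent.Y522.Stm2
import Pool.Agent.Y522.Tools

/-!
# The induction step (project SH)
-/

set_option autoImplicit false

open Set Filter Topology Metric Function MeasureTheory
open scoped Manifold ContDiff

noncomputable section

namespace Pool.Agent.Y691.SH
open Pool.Agent.Y522

/-- regular values of a smooth function in an interval -/
theorem exists_regular (hS : StSardM) {n : ℕ} {X : Type} [TopologicalSpace X]
    [SecondCountableTopology X] [ChartedSpace (E n) X] [IsManifold (𝓡 n) ∞ X] (f : X → ℝ)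
    (hf : ContMDiff (𝓡 n) 𝓘(ℝ, ℝ) ∞ f) {a b : ℝ} (hab : a < b) :
    ∃ s, a < s ∧ s < b ∧ ∀ x, f x = s → mfderiv (𝓡 n) 𝓘(ℝ, ℝ) f x ≠ 0 := by
  have h0 := hS n X f hf
  by_contra hcon
  push Not at hcon
  have hsub : Ioo a b ⊆ f '' {x | mfderiv (𝓡 n) 𝓘(ℝ, ℝ) f x = 0} := by
    intro s hs
    obtain ⟨x, hx, hx0⟩ := hcon s hs.1 hs.2
    exact ⟨x, hx0, hx⟩
  have h1 : volume (Ioo a b) = 0 := measure_mono_null hsub h0
  rw [Real.volume_Ioo, ENNReal.ofReal_eq_zero] at h1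
  linarith

/-- subtracting a constant does not change the differential -/
theorem mfderiv_sub_const' {n : ℕ} {X : Type} [TopologicalSpace X]
    [ChartedSpace (E n) X] [IsManifold (𝓡 n) ∞ X] (f : X → ℝ)
    (hf : ContMDiff (𝓡 n) 𝓘(ℝ, ℝ) ∞ f) (s : ℝ) (x : X)
    (h : mfderiv (𝓡 n) 𝓘(ℝ, ℝ) f x ≠ 0) :
    mfderiv (𝓡 n) 𝓘(ℝ, ℝ) (fun y => f y - s) x ≠ 0 := by
  intro hcon
  apply h
  have hg : ContMDiff (𝓡 n) 𝓘(ℝ, ℝ) ∞ (fun y => f y - s) := hf.sub contMDiff_const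
  have hgd : MDifferentiableAt (𝓡 n) 𝓘(ℝ, ℝ) (fun y => f y - s) x :=
    hg.mdifferentiable (by simp) x
  have ht : MDifferentiableAt 𝓘(ℝ, ℝ) 𝓘(ℝ, ℝ) (fun u : ℝ => u + s) (f x - s) :=
    (differentiableAt_id.add_const s).mdifferentiableAt
  have h1 : mfderiv (𝓡 n) 𝓘(ℝ, ℝ) ((fun u : ℝ => u + s) ∘ (fun y => f y - s)) x =
      (mfderiv 𝓘(ℝ, ℝ) 𝓘(ℝ, ℝ) (fun u : ℝ => u + s) (f x - s)).comp
        (mfderiv (𝓡 n) 𝓘(ℝ, ℝ) (fun y => f y - s) x) := mfderiv_comp x ht hgd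
  have h2 : ((fun u : ℝ => u + s) ∘ (fun y => f y - s)) = f := by
    funext y; simp
  rw [h2, hcon] at h1
  rw [h1]
  exact ContinuousLinearMap.comp_zero _

/-! ### Stereographic projection -/

section stereo
variable {m : ℕ}

/-- stereographic projection of the sphere of radius `r` from the point `r e0` -/
def st (r : ℝ) (z : E (m + 1)) : E m := (r / (r - z 0)) • tl z

/-- its inverse -/
def st' (r : ℝ) (w : E m) : E (m + 1) :=
  cn (r * (‖w‖ ^ 2 - r ^ 2) / (‖w‖ ^ 2 + r ^ 2)) ((2 * r ^ 2 / (‖w‖ ^ 2 + r ^ 2)) • w)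

theorem e0_head : (e0 : E (m + 1)) 0 = 1 := rfl

theorem e0_tail : tl (e0 : E (m + 1)) = 0 := by
  unfold e0; rw [tl_cn]

theorem head_ne {r : ℝ} {z : E (m + 1)} (hz : ‖z‖ ^ 2 = r ^ 2) (hn : z ≠ r • e0) :
    z 0 ≠ r := by
  intro h
  apply hn
  have h1 := norm_sq_split z
  rw [hz, h] at h1
  have h2 : ‖tl z‖ ^ 2 = 0 := by linarith
  have h3 : tl z = 0 := by simpa using h2
  rw [← cn_tl z, h3, h, cn_eq]
  have h4 : cn 0 (0 : E m) = 0 := by
    ext i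
    refine Fin.cases ?_ (fun i => ?_) i <;> simp
  rw [h4, add_zero]

theorem st'_cont {r : ℝ} (hr : 0 < r) : Continuous (st' (m := m) r) := by
  have h : ∀ w : E m, ‖w‖ ^ 2 + r ^ 2 ≠ 0 := fun w => by positivity
  have h1 : Continuous (fun w : E m => r * (‖w‖ ^ 2 - r ^ 2) / (‖w‖ ^ 2 + r ^ 2)) := by
    fun_prop (disch := exact h)
  have h2 : Continuous (fun w : E m => (2 * r ^ 2 / (‖w‖ ^ 2 + r ^ 2)) • w) := by
    have : Continuous (fun w : E m => 2 * r ^ 2 / (‖w‖ ^ 2 + r ^ 2)) := by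
      fun_prop (disch := exact h)
    exact this.smul continuous_id
  exact continuous_cn.comp (h1.prodMk h2)

theorem st'_norm {r : ℝ} (hr : 0 < r) (w : E m) : ‖st' r w‖ ^ 2 = r ^ 2 := by
  have h : ‖w‖ ^ 2 + r ^ 2 ≠ 0 := by positivity
  unfold st'
  rw [norm_cn_sq, norm_smul, mul_pow, Real.norm_eq_abs, sq_abs]
  field_simp
  ring

theorem st'_head_ne {r : ℝ} (hr : 0 < r) (w : E m) : (st' r w) 0 ≠ r := by
  have h : 0 < ‖w‖ ^ 2 + r ^ 2 := by positivity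
  unfold st'
  rw [cn_zero]
  intro hcon
  rw [div_eq_iff h.ne'] at hcon
  have h1 : 0 < r ^ 3 := by positivity
  nlinarith

theorem st'_ne {r : ℝ} (hr : 0 < r) (w : E m) : st' r w ≠ r • e0 := by
  intro hcon
  apply st'_head_ne hr w
  rw [hcon]
  simp [e0_head]

theorem st_st' {r : ℝ} (hr : 0 < r) (w : E m) : st r (st' r w) = w := by
  have h : ‖w‖ ^ 2 + r ^ 2 ≠ 0 := by positivity
  unfold st st'
  rw [cn_zero, tl_cn, smul_smul]
  have e : r / (r - r * (‖w‖ ^ 2 - r ^ 2) / (‖w‖ ^ 2 + r ^ 2)) *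
      (2 * r ^ 2 / (‖w‖ ^ 2 + r ^ 2)) = 1 := by
    have h1 : r - r * (‖w‖ ^ 2 - r ^ 2) / (‖w‖ ^ 2 + r ^ 2) = 2 * r ^ 3 / (‖w‖ ^ 2 + r ^ 2) := by
      field_simp; ring
    rw [h1]
    field_simp
  rw [e, one_smul]

theorem st'_st {r : ℝ} (hr : 0 < r) {z : E (m + 1)} (hz : ‖z‖ ^ 2 = r ^ 2) (hn : z 0 ≠ r) :
    st' r (st r z) = z := by
  have h1 := norm_sq_split z
  rw [hz] at h1
  have ha : r - z 0 ≠ 0 := sub_ne_zero.2 (Ne.symm hn)
  have h2 : ‖st r z‖ ^ 2 = r ^ 2 * (r + z 0) / (r - z 0) := by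
    unfold st
    rw [norm_smul, mul_pow, Real.norm_eq_abs, sq_abs]
    have : ‖tl z‖ ^ 2 = (r + z 0) * (r - z 0) := by linarith
    rw [this]
    field_simp
  have h3 : ‖st r z‖ ^ 2 + r ^ 2 = 2 * r ^ 3 / (r - z 0) := by
    rw [h2]; field_simp; ring
  have h4 : ‖st r z‖ ^ 2 - r ^ 2 = 2 * r ^ 2 * z 0 / (r - z 0) := by
    rw [h2]; field_simp; ring
  have h5 : r * (‖st r z‖ ^ 2 - r ^ 2) / (‖st r z‖ ^ 2 + r ^ 2) = z 0 := by
    rw [h3, h4]; field_simp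
  have h6 : (2 * r ^ 2 / (‖st r z‖ ^ 2 + r ^ 2)) • st r z = tl z := by
    rw [h3]
    unfold st
    rw [smul_smul]
    have : 2 * r ^ 2 / (2 * r ^ 3 / (r - z 0)) * (r / (r - z 0)) = 1 := by
      field_simp
    rw [this, one_smul]
  unfold st'
  rw [h5, h6, cn_tl]

theorem st_contDiffAt {r : ℝ} {z : E (m + 1)} (hn : z 0 ≠ r) : ContDiffAt ℝ ∞ (st r) z := by
  have ha : r - z 0 ≠ 0 := sub_ne_zero.2 (Ne.symm hn)
  have h1 : ContDiffAt ℝ ∞ (fun z : E (m + 1) => z 0) z := by fun_prop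
  have h2 : ContDiffAt ℝ ∞ (fun z : E (m + 1) => r / (r - z 0)) z :=
    contDiffAt_const.div (contDiffAt_const.sub h1) ha
  exact h2.smul tl.contDiff.contDiffAt

end stereo

/-- **The induction step.** -/
theorem sphereStep (hS : StSardM) (hSl : StSlice) (hM : StMazur2) :
    ∀ m, StEng m → StBox m → StEng (m + 1) := by
  intro m hE hB X _ _ _ H hH K hK
  have : T2Space X := H.symm.t2Space
  have : SecondCountableTopology X := H.secondCountableTopology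
  -- a ball containing the image
  obtain ⟨M, hM0, hMK⟩ : ∃ M : ℝ, 0 < M ∧ ∀ x ∈ K, ‖H x‖ < M := by
    obtain ⟨C, hC⟩ := (hK.image H.continuous).isBounded.exists_norm_le
    refine ⟨max C 0 + 1, by positivity, fun x hx => ?_⟩
    have h1 := hC (H x) ⟨x, hx, rfl⟩
    have h2 := le_max_left C 0
    linarith
  -- the function
  have hf : ContMDiff (𝓡 (m + 1)) 𝓘(ℝ, ℝ) ∞ (fun x => ‖H x‖ ^ 2) := by
    have h1 : ContDiff ℝ ∞ (fun y : E (m + 1) => ‖y‖ ^ 2) := contDiff_norm_sq ℝ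
    exact h1.contMDiff.comp hH
  obtain ⟨s, hs1, hs2, hs3⟩ := exists_regular hS (fun x => ‖H x‖ ^ 2) hf
    (show M ^ 2 < (M + 1) ^ 2 by nlinarith)
  obtain ⟨r, hr, hrs⟩ : ∃ r : ℝ, 0 < r ∧ r ^ 2 = s := by
    have hs0 : 0 < s := lt_trans (by positivity) hs1
    exact ⟨√s, Real.sqrt_pos.2 hs0, Real.sq_sqrt hs0.le⟩
  subst hrs
  have hMr : M < r := lt_of_pow_lt_pow_left₀ 2 hr.le hs1
  set φ : X → ℝ := fun x => ‖H x‖ ^ 2 - r ^ 2 with hφ
  have hφs : ContMDiff (𝓡 (m + 1)) 𝓘(ℝ, ℝ) ∞ φ := hf.sub contMDiff_const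
  have hφd : ∀ x, φ x = 0 → mfderiv (𝓡 (m + 1)) 𝓘(ℝ, ℝ) φ x ≠ 0 := fun x hx =>
    mfderiv_sub_const' _ hf (r ^ 2) x (hs3 x (sub_eq_zero.1 hx))
  have hBc : IsCompact {x | φ x ≤ 0} := by
    have h1 : {x | φ x ≤ 0} = H ⁻¹' closedBall 0 r := by
      ext x
      simp only [mem_ofPred_eq, mem_preimage, mem_closedBall, dist_zero_right, hφ]
      constructor
      · intro h
        exact le_of_sq_le_sq (by linarith) hr.le
      · intro h
        have := pow_le_pow_left₀ (norm_nonneg (H x)) h 2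
        linarith
    rw [h1]
    exact H.isClosedEmbedding.isCompact_preimage (isCompact_closedBall _ _)
  obtain ⟨U, k, hU, hBU, hk, hkd⟩ := hB X H hH _ hBc
  set p₀ : X := H.symm (r • e0) with hp₀
  have : Nonempty X := ⟨p₀⟩
  have hp0 : φ p₀ = 0 := by
    have h1 : ‖(e0 : E (m + 1))‖ ^ 2 = 1 := by
      unfold e0; rw [norm_cn_sq]; simp
    simp only [hφ, hp₀, Homeomorph.apply_symm_apply]
    rw [norm_smul, mul_pow, h1, Real.norm_eq_abs, sq_abs]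
    ring
  have hp₀U : p₀ ∈ U := hBU (show φ p₀ ≤ 0 from hp0.le)
  obtain ⟨κ, hκ⟩ : ∃ κ : E (m + 1) → X, ∀ x ∈ U, κ (k x) = x :=
    ⟨invFunOn k U, fun x hx => hk.leftInvOn_invFunOn hx⟩
  have hκd : ∀ x ∈ U, LD (m + 1) κ (k x) := fun x hx => LD.inverse hU hkd hκ hx
  have hN : IsOpen (k '' U) := isOpen_image_of_LD hU hkd
  have hψd : ∀ z ∈ k '' U, ContDiffAt ℝ ∞ (φ ∘ κ) z := by
    rintro _ ⟨x, hx, rfl⟩
    exact contMDiffAt_iff_contDiffAt.1 (hφs.contMDiffAt.comp _ (hκd x hx).contMDiffAt)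
  have hkc : ContinuousOn k U := fun x hx => (hkd x hx).continuousAt.continuousWithinAt
  have hcomp : IsCompact {z | z ∈ k '' U ∧ (φ ∘ κ) z ≤ 0} := by
    have h1 : {z | z ∈ k '' U ∧ (φ ∘ κ) z ≤ 0} = k '' {x | φ x ≤ 0} := by
      ext z
      constructor
      · rintro ⟨⟨x, hx, rfl⟩, h⟩
        simp only [Function.comp, hκ x hx] at h
        exact ⟨x, h, rfl⟩
      · rintro ⟨x, hx, rfl⟩
        refine ⟨⟨x, hBU hx, rfl⟩, ?_⟩
        simp only [Function.comp, hκ x (hBU hx)]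
        exact hx
    rw [h1]
    exact hBc.image_of_continuousOn (hkc.mono hBU)
  have hreg : ∀ z ∈ k '' U, (φ ∘ κ) z = 0 → fderiv ℝ (φ ∘ κ) z ≠ 0 := by
    rintro _ ⟨x, hx, rfl⟩ hz hcon
    simp only [Function.comp, hκ x hx] at hz
    apply hφd x hz
    have h0 : φ =ᶠ[𝓝 x] (φ ∘ κ) ∘ k := by
      filter_upwards [hU.mem_nhds hx] with y hy
      simp [hκ y hy]
    have h1 : mfderiv (𝓡 (m + 1)) 𝓘(ℝ, ℝ) φ x =
        mfderiv (𝓡 (m + 1)) 𝓘(ℝ, ℝ) ((φ ∘ κ) ∘ k) x := h0.mfderiv_eq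
    have h3 : MDifferentiableAt (𝓡 (m + 1)) 𝓘(ℝ, ℝ) (φ ∘ κ) (k x) :=
      mdifferentiableAt_iff_differentiableAt.2 ((hψd _ ⟨_, hx, rfl⟩).differentiableAt (by simp))
    have h2 : mfderiv (𝓡 (m + 1)) 𝓘(ℝ, ℝ) ((φ ∘ κ) ∘ k) x =
        (mfderiv (𝓡 (m + 1)) 𝓘(ℝ, ℝ) (φ ∘ κ) (k x)).comp
          (mfderiv (𝓡 (m + 1)) (𝓡 (m + 1)) k x) :=
      mfderiv_comp _ h3 (hkd _ hx).mdifferentiableAt
    have h4 : mfderiv (𝓡 (m + 1)) 𝓘(ℝ, ℝ) (φ ∘ κ) (k x) = 0 := by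
      rw [mfderiv_eq_fderiv]
      exact hcon
    rw [h1, h2, h4]
    exact ContinuousLinearMap.zero_comp _
  -- engulfing in the sphere
  have heng : ∀ K' : Set (E (m + 1)), IsCompact K' →
      (∀ z ∈ K', z ∈ k '' U ∧ (φ ∘ κ) z = 0 ∧ z ≠ k p₀) →
      ∃ (f : E m → E (m + 1)) (R : ℝ), Injective f ∧ ContDiff ℝ ∞ f ∧
        (∀ x, Injective (fderiv ℝ f x)) ∧
        (∀ x, f x ∈ k '' U ∧ (φ ∘ κ) (f x) = 0 ∧ f x ≠ k p₀) ∧ K' ⊆ f '' closedBall 0 R := by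
    intro K' hK' hK'1
    have hκc : ContinuousOn κ K' := by
      intro z hz
      obtain ⟨x, hx, rfl⟩ := (hK'1 z hz).1
      exact (hκd x hx).continuousAt.continuousWithinAt
    have hhead : ∀ x, x ≠ p₀ → φ x = 0 → (H x) 0 ≠ r := by
      intro x hx hx0
      refine head_ne (sub_eq_zero.1 hx0) (fun h => hx ?_)
      rw [hp₀, ← h, Homeomorph.symm_apply_apply]
    obtain ⟨f, R, hfi, hfs, hfd, hfW, hfK⟩ := hSl m hE X {x | x ≠ p₀} φ (fun x => st r (H x))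
      (fun w => H.symm (st' r w)) isOpen_ne (fun x _ => hφs.contMDiffAt)
      (fun x _ hx => hφd x hx)
      (by
        intro x hx hx0
        have h1 : ContMDiffAt (𝓡 (m + 1)) (𝓡 m) ∞ (st r) (H x) :=
          (st_contDiffAt (hhead x hx hx0)).contMDiffAt
        exact h1.comp x hH.contMDiffAt)
      (H.symm.continuous.comp (st'_cont hr))
      (by
        intro y
        refine ⟨fun h => ?_, ?_⟩
        · rw [hp₀] at h
          exact st'_ne hr y (H.symm.injective h)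
        · simp only [hφ, Homeomorph.apply_symm_apply]
          rw [st'_norm hr, sub_self])
      (by
        intro y
        simp only [Homeomorph.apply_symm_apply]
        exact st_st' hr y)
      (by
        intro x hx hx0
        rw [st'_st hr (sub_eq_zero.1 hx0) (hhead x hx hx0), Homeomorph.symm_apply_apply])
      (κ '' K') (hK'.image_of_continuousOn hκc)
      (by
        rintro _ ⟨z, hz, rfl⟩
        obtain ⟨⟨x, hx, rfl⟩, hz1, hz2⟩ := hK'1 z hz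
        refine ⟨?_, hz1⟩
        change κ (k x) ≠ p₀
        rw [hκ x hx]
        rintro rfl
        exact hz2 rfl)
    have hfU : ∀ x, f x ∈ U := fun x => hBU (show φ (f x) ≤ 0 from (hfW x).2.le)
    have hcd : ContMDiff (𝓡 m) (𝓡 (m + 1)) ∞ (k ∘ f) := fun x =>
      (hkd _ (hfU x)).contMDiffAt.comp x hfs.contMDiffAt
    refine ⟨k ∘ f, R, ?_, contMDiff_iff_contDiff.1 hcd, ?_, ?_, ?_⟩
    · intro a b hab
      exact hfi (hk (hfU a) (hfU b) hab)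
    · intro x
      have h1 : fderiv ℝ (k ∘ f) x = mfderiv (𝓡 m) (𝓡 (m + 1)) (k ∘ f) x :=
        mfderiv_eq_fderiv.symm
      have h2 : mfderiv (𝓡 m) (𝓡 (m + 1)) (k ∘ f) x =
          (mfderiv (𝓡 (m + 1)) (𝓡 (m + 1)) k (f x)).comp (mfderiv (𝓡 m) (𝓡 (m + 1)) f x) :=
        mfderiv_comp x (hkd _ (hfU x)).mdifferentiableAt (hfs.mdifferentiableAt (by simp))
      intro a b hab
      rw [h1, h2] at hab
      exact hfd x ((hkd _ (hfU x)).mfderiv_injective hab)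
    · intro x
      refine ⟨⟨f x, hfU x, rfl⟩, ?_, ?_⟩
      · simp only [Function.comp, hκ _ (hfU x)]
        exact (hfW x).2
      · intro h
        exact (hfW x).1 (hk (hfU x) hp₀U h)
    · intro z hz
      obtain ⟨⟨x, hx, rfl⟩, hz1, hz2⟩ := hK'1 z hz
      obtain ⟨y, hy, hyx⟩ := hfK ⟨k x, hz, rfl⟩
      refine ⟨y, hy, ?_⟩
      rw [hκ x hx] at hyx
      simp only [Function.comp, hyx]
  have hKU : ∀ x ∈ K, x ∈ U ∧ φ x < 0 := by
    intro x hx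
    have h1 : φ x < 0 := by
      have h2 : ‖H x‖ ^ 2 < r ^ 2 :=
        pow_lt_pow_left₀ ((hMK x hx).trans hMr) (norm_nonneg _) two_ne_zero
      simp only [hφ]
      linarith
    exact ⟨hBU h1.le, h1⟩
  obtain ⟨g, hgi, hgd, hgL, hgN⟩ := hM m (k '' U) (φ ∘ κ) (k p₀) hN hψd hcomp hreg
    ⟨p₀, hp₀U, rfl⟩ (by simp only [Function.comp, hκ _ hp₀U]; exact hp0) heng (k '' K)
    (hK.image_of_continuousOn (hkc.mono fun x hx => (hKU x hx).1))
    (by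
      rintro _ ⟨x, hx, rfl⟩
      refine ⟨⟨x, (hKU x hx).1, rfl⟩, ?_⟩
      simp only [Function.comp, hκ _ (hKU x hx).1]
      exact (hKU x hx).2)
  have hkκ : ∀ z ∈ k '' U, k (κ z) = z := by
    rintro _ ⟨x, hx, rfl⟩
    rw [hκ x hx]
  refine ⟨fun x => κ (g x), ?_, ?_, ?_⟩
  · intro a b hab
    apply hgi
    rw [← hkκ _ (hgN a).1, ← hkκ _ (hgN b).1]
    exact congrArg k hab
  · intro x
    refine LD.comp_fun ?_ (hgd x)
    obtain ⟨y, hy, hyx⟩ := (hgN x).1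
    rw [← hyx]
    exact hκd y hy
  · intro x hx
    obtain ⟨y, hy⟩ := hgL ⟨x, hx, rfl⟩
    refine ⟨y, ?_⟩
    simp only [hy]
    exact hκ x (hKU x hx).1

end Pool.Agent.Y691.SH
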